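import Pool.Agent.W89.VP.Defs
import Pool.Agent.W89.VP.StrC
import Pool.Agent.W89.VP.Fin
import Pool.Agent.W89.VP.Final
import Pool.Agent.W505.PV.Ref
import Pool.Agent.W505.PV.VF
import Pool.Agent.W505.PV.Vinf
import Pool.Agent.W320.PV_EXC
import Pool.Agent.W320.PV_UNIQA
import Pool.Agent.W298.PV_UNIQB
import Pool.Agent.W240.PV_CARDU
import Pool.Agent.W346.PV.FacAvg
import Pool.Agent.W346.PV.Cnt
import Pool.Agent.W346.PV.Newt
import Pool.Agent.W346.PV.Diag
import Pool.Agent.W154.PV.PV_DISJ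
import Pool.Agent.W156.PV_RED

/-! # Vinogradov's system with `s ≤ (1 + 1/300) k` variables has few non-diagonal solutions -/

set_option autoImplicit false

namespace Pool.Agent.Results.MP_e21eee_nt.PaucityLinear

open scoped Classical in
/-- For `k < s ≤ k + k/300`, the number of non-diagonal solutions of Vinogradov's system of degree `k` in `s`
pairs of variables in `[1,N]` is `O(N^(s - k/100))`, and the number of all solutions is
`s! N^s + O(N^(s-1))`. -/
theorem result (s k : ℕ) (hks : k < s) (h300 : 300 * (s - k) ≤ k) :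
    ∃ C : ℝ, ∀ N : ℕ, 1 ≤ N →
      ((((Fintype.piFinset fun _ : Fin s => Finset.Icc 1 N) ×ˢ
          (Fintype.piFinset fun _ : Fin s => Finset.Icc 1 N)).filter
          (fun p : (Fin s → ℕ) × (Fin s → ℕ) =>
            (∀ j : Fin k, ∑ i : Fin s, p.1 i ^ (j.val + 1) = ∑ i : Fin s, p.2 i ^ (j.val + 1)) ∧
            ¬ ∃ σ : Equiv.Perm (Fin s), p.2 = p.1 ∘ σ)).card : ℝ)
        ≤ C * (N : ℝ) ^ ((s : ℝ) - (k : ℝ) / 100) ∧
      |((((Fintype.piFinset fun _ : Fin s => Finset.Icc 1 N) ×ˢ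
          (Fintype.piFinset fun _ : Fin s => Finset.Icc 1 N)).filter
          (fun p : (Fin s → ℕ) × (Fin s → ℕ) =>
            ∀ j : Fin k, ∑ i : Fin s, p.1 i ^ (j.val + 1) = ∑ i : Fin s, p.2 i ^ (j.val + 1))).card : ℝ)
          - (s.factorial : ℝ) * (N : ℝ) ^ s| ≤ C * (N : ℝ) ^ (s - 1) := by
  have hDIV := Pool.Agent.W505.PV.VF.mainDIV
  have hVF := Pool.Agent.W505.PV.VF.mainVF
  have hREF := Pool.Agent.W505.PV.Ref.main
  have hVINF := Pool.Agent.W505.PV.Vinf.main hDIV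
  have hEXC := Pool.Agent.W320.PV_EXC.main hVF hVINF
  have hUNIQ := Pool.Agent.W298.PVUniqB.main Pool.Agent.W320.PV_UNIQA.main
  have hCARDU := Pool.Agent.W240.PVCARDU.main hUNIQ hDIV
  have hSTR := Pool.Agent.W89.VP.str Pool.Agent.W346.PV.FacAvg.mainFAC hVF hREF
    Pool.Agent.W346.PV.FacAvg.mainAVG
  have hCNT := Pool.Agent.W346.PV.Cnt.main hDIV
  have hNEWT := Pool.Agent.W346.PV.Newt.main
  have hMAIN := Pool.Agent.W89.VP.FinP.fin_main hEXC hSTR hCARDU hCNT hDIV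
  have hDISJ := Pool.Agent.W154.PV.main hMAIN hNEWT
  have hRED := Pool.Agent.W156.PVRED.main hNEWT
  obtain ⟨C, hC⟩ := Pool.Agent.W89.VP.final hDISJ hRED Pool.Agent.W346.PV.Diag.main s k hks h300
  refine ⟨C, fun N hN => ?_⟩
  obtain ⟨h1, h2⟩ := hC N hN
  refine ⟨?_, ?_⟩
  · rw [Pool.Agent.W89.VP.VN, Pool.Agent.W89.VP.VS, Finset.filter_filter] at h1
    convert h1 using 1
  · rw [Pool.Agent.W89.VP.VS] at h2
    convert h2 using 1

end Pool.Agent.Results.MP_e21eee_nt.PaucityLinear
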